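import Pool.Agent.Helper88.AY.KEU

open Complex Metric Set Filter Topology MeasureTheory
open scoped ContDiff ComplexConjugate ComplexOrder Manifold Matrix

namespace Pool.Agent.Helper88.AY

open Pool.Agent.Helper95.Lin Pool.Agent.Helper16.Abund Pool.Agent.Helper92.Orb Pool.Agent.Helper10.SP
  Pool.Agent.Helper95.RK Pool.Agent.Helper57.HS Pool.Agent.Helper14.AY

theorem TF_dv {n : ℕ} (v : Cn n) {k : Cn n → ℝ} (hk : TF k) : TF (dv v k) :=
  ⟨dv_smooth v hk.1, hk.2.fderiv_apply (𝕜 := ℝ) v⟩

theorem TF_hess {n : ℕ} (u v : Cn n) {k : Cn n → ℝ} (hk : TF k) : TF (fun y => hess k y u v) :=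
  TF_dv u (TF_dv v hk)

theorem TF_Eu {n : ℕ} {k : Cn n → ℝ} (hk : TF k) : TF (Eu k) := by
  refine ⟨(contDiff_const.mul hk.1).add (rd_smooth hk.1), ?_⟩
  apply HasCompactSupport.add
  · exact hk.2.mul_left
  · have h : HasCompactSupport (fderiv ℝ k) := hk.2.fderiv (𝕜 := ℝ)
    refine h.mono (fun y hy => ?_)
    simp only [Function.mem_support] at hy ⊢
    intro h0
    apply hy
    rw [h0]
    rfl

theorem dv_C1 {n : ℕ} {w : Cn n → ℝ} (hw : ContDiff ℝ 2 w) (v : Cn n) :
    ContDiff ℝ 1 (fun y => fderiv ℝ w y v) :=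
  (hw.fderiv_right (m := 1) (by norm_num)).clm_apply contDiff_const

theorem hess_cont {n : ℕ} {w : Cn n → ℝ} (hw : ContDiff ℝ 2 w) (u v : Cn n) :
    Continuous (fun y => hess w y u v) :=
  ((dv_C1 hw v).continuous_fderiv (by norm_num)).clm_apply continuous_const

theorem hess_supp {n : ℕ} {w : Cn n → ℝ} (hc : HasCompactSupport w) (u v : Cn n) :
    HasCompactSupport (fun y => hess w y u v) :=
  (hc.fderiv_apply (𝕜 := ℝ) v).fderiv_apply (𝕜 := ℝ) u

/-- Two integrations by parts. -/
theorem Cv_two (hD : S_CVD) {n : ℕ} {k w : Cn n → ℝ} (hk : TF k) (hw : ContDiff ℝ 2 w)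
    (u v : Cn n) (r : ℝ) (x : Cn n) (hr : 0 < r) :
    r ^ 2 * Cv k (fun y => hess w y u v) r x = Cv (fun y => hess k y u v) w r x := by
  have h1 := hD k (fun y => fderiv ℝ w y v) hk (dv_C1 hw v) u r x hr
  have h2 := hD (dv u k) w (TF_dv u hk) (hw.of_le (by norm_num)) v r x hr
  have h3 : (fun y => fderiv ℝ (dv u k) y v) = fun y => hess k y u v := by
    have := dv_comm hk.1 v u
    exact this
  rw [h3] at h2
  have h4 : (fun y => hess w y u v) = fun y => fderiv ℝ (fun y => fderiv ℝ w y v) y u := rfl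
  have h5 : dv u k = fun y => fderiv ℝ k y u := rfl
  rw [← h2, h4, h5, ← h1]
  ring

theorem Cv_Lap (hB : S_CVB) (hD : S_CVD) {n : ℕ} {l w : Cn n → ℝ} (hl : TF l)
    (hw : ContDiff ℝ 2 w) (r : ℝ) (x : Cn n) (hr : 0 < r) :
    Cv (Lap l) w r x = r ^ 2 * Cv l (Lap w) r x := by
  have h1 : Cv (Lap l) w r x = ∑ a : Fin n × Bool, Cv (fun y => hess l y (rb a) (rb a)) w r x := by
    unfold Cv Lap
    rw [← integral_finset_sum]
    · apply integral_congr_ae
      refine Filter.Eventually.of_forall (fun y => ?_)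
      simp only [Finset.mul_sum]
    · intro a _
      exact (hB _ w (TF_hess (rb a) (rb a) hl) hw.continuous).1 r x
  have h2 : Cv l (Lap w) r x = ∑ a : Fin n × Bool, Cv l (fun y => hess w y (rb a) (rb a)) r x := by
    unfold Cv Lap
    rw [← integral_finset_sum]
    · apply integral_congr_ae
      refine Filter.Eventually.of_forall (fun y => ?_)
      simp only [Finset.sum_mul]
    · intro a _
      exact (hB l _ hl (hess_cont hw (rb a) (rb a))).1 r x
  rw [h1, h2, Finset.mul_sum]
  apply Finset.sum_congr rfl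
  intro a _
  exact (Cv_two hD hl hw (rb a) (rb a) r x hr).symm

theorem gsl (hB : S_CVB) (hD : S_CVD) (hR : S_CVR) : S_GSL := by
  intro n φ ψ hφ hψ h1 h w hw hc u v x
  have hk : TF (fun y => hess φ y u v) := TF_hess u v hφ
  have hl : TF (fun y => hess ψ y u v) := TF_hess u v hψ
  have key : ∀ s : ℝ, 0 < s → Cv φ (fun y => hess w y u v) s x
      = (s ^ 2)⁻¹ * Cv (fun y => hess φ y u v) w s x := by
    intro s hs
    rw [← Cv_two hD hφ hw u v s x hs]
    field_simp
  refine ⟨?_, ?_, ?_⟩
  · intro r hr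
    have d1 : HasDerivAt (fun s => Cv (fun y => hess φ y u v) w s x)
        (- r⁻¹ * Cv (Eu (fun y => hess φ y u v)) w r x) r :=
      hR _ w hk hw.continuous x r hr
    have d2 : HasDerivAt (fun s : ℝ => (s ^ 2)⁻¹) (-(2 * r) / (r ^ 2) ^ 2) r := by
      have := (hasDerivAt_pow 2 r).fun_inv (by positivity)
      simpa using this
    have d3 := d2.fun_mul d1
    have e1 : Cv (fun y => 2 * hess φ y u v + 1 * Eu (fun z => hess φ z u v) y) w r x
        = 2 * Cv (fun y => hess φ y u v) w r x + 1 * Cv (Eu (fun y => hess φ y u v)) w r x :=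
      (hB _ w hk hw.continuous).2.1 (Eu (fun y => hess φ y u v)) (TF_Eu hk) 2 1 r x
    have e2 : Cv (fun y => 2 * hess φ y u v + 1 * Eu (fun z => hess φ z u v) y) w r x
        = - Cv (Lap (fun z => hess ψ z u v)) w r x := by
      unfold Cv
      rw [← integral_neg]
      apply integral_congr_ae
      refine Filter.Eventually.of_forall (fun y => ?_)
      have := keu φ ψ hφ hψ h u v y
      simp only [one_mul]
      rw [this]
      ring
    have e3 := Cv_Lap hB hD hl hw r x hr
    have d4 : HasDerivAt (fun s : ℝ => (s ^ 2)⁻¹ * Cv (fun y => hess φ y u v) w s x)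
        (r⁻¹ * Cv (fun y => hess ψ y u v) (Lap w) r x) r := by
      refine d3.congr_deriv ?_
      have e4 : Cv (Eu (fun y => hess φ y u v)) w r x
          = - (r ^ 2 * Cv (fun y => hess ψ y u v) (Lap w) r x)
            - 2 * Cv (fun y => hess φ y u v) w r x := by
        linarith [e1, e2, e3]
      rw [e4]
      field_simp
      ring
    refine d4.congr_of_eventuallyEq ?_
    filter_upwards [lt_mem_nhds hr] with s hs
    exact key s hs
  · have := (hB φ (fun y => hess w y u v) hφ (hess_cont hw u v)).2.2.2.1 x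
    rw [h1, mul_one] at this
    exact this
  · have := (hB (fun y => hess φ y u v) w hk hw.continuous).2.2.2.2 x hc
    refine this.congr' ?_
    filter_upwards [eventually_gt_atTop 0] with s hs
    exact (key s hs).symm

end Pool.Agent.Helper88.AY
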