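import Pool.Agent.Helper14.AY.GoalsA

open Complex Metric Set Filter Topology MeasureTheory
open scoped ContDiff ComplexConjugate ComplexOrder Manifold Matrix

namespace Pool.Agent.Helper88.AY

open Pool.Agent.Helper95.Lin Pool.Agent.Helper16.Abund Pool.Agent.Helper92.Orb Pool.Agent.Helper10.SP
  Pool.Agent.Helper95.RK Pool.Agent.Helper57.HS Pool.Agent.Helper14.AY

/-- Directional derivative. -/
noncomputable def dv {n : ℕ} (v : Cn n) (f : Cn n → ℝ) : Cn n → ℝ := fun y => fderiv ℝ f y v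

theorem dv_smooth {n : ℕ} (v : Cn n) {f : Cn n → ℝ} (hf : ContDiff ℝ ∞ f) :
    ContDiff ℝ ∞ (dv v f) :=
  (hf.fderiv_right (m := ∞) (by simp)).clm_apply contDiff_const

theorem smooth_diff {n : ℕ} {f : Cn n → ℝ} (hf : ContDiff ℝ ∞ f) : Differentiable ℝ f :=
  hf.differentiable (by simp)

theorem fd_diff {n : ℕ} {f : Cn n → ℝ} (hf : ContDiff ℝ ∞ f) :
    Differentiable ℝ (fderiv ℝ f) :=
  (hf.fderiv_right (m := ∞) (by simp)).differentiable (by simp)

theorem dv_dv {n : ℕ} {f : Cn n → ℝ} (hf : ContDiff ℝ ∞ f) (u v y : Cn n) :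
    dv u (dv v f) y = fderiv ℝ (fderiv ℝ f) y u v := by
  unfold dv
  rw [fderiv_clm_apply ((fd_diff hf) y) (differentiableAt_const v)]
  simp

theorem dv_comm {n : ℕ} {f : Cn n → ℝ} (hf : ContDiff ℝ ∞ f) (u v : Cn n) :
    dv u (dv v f) = dv v (dv u f) := by
  funext y
  rw [dv_dv hf, dv_dv hf]
  have h : IsSymmSndFDerivAt ℝ f y := by
    apply ContDiffAt.isSymmSndFDerivAt (n := ∞) hf.contDiffAt
    simp only [minSmoothness_of_isRCLikeNormedField]
    exact WithTop.coe_le_coe.2 le_top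
  exact h u v

theorem dv_add {n : ℕ} (v : Cn n) {f g : Cn n → ℝ} (hf : ContDiff ℝ ∞ f) (hg : ContDiff ℝ ∞ g) :
    dv v (fun y => f y + g y) = fun y => dv v f y + dv v g y := by
  funext y
  unfold dv
  rw [fderiv_fun_add (smooth_diff hf y) (smooth_diff hg y)]
  simp

theorem dv_const_mul {n : ℕ} (v : Cn n) {f : Cn n → ℝ} (hf : ContDiff ℝ ∞ f) (c : ℝ) :
    dv v (fun y => c * f y) = fun y => c * dv v f y := by
  funext y
  unfold dv
  rw [fderiv_const_mul (smooth_diff hf y) c]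
  simp

theorem dv_sum {n : ℕ} (v : Cn n) {ι : Type*} (s : Finset ι) {f : ι → Cn n → ℝ}
    (hf : ∀ a ∈ s, ContDiff ℝ ∞ (f a)) :
    dv v (fun y => ∑ a ∈ s, f a y) = fun y => ∑ a ∈ s, dv v (f a) y := by
  funext y
  unfold dv
  rw [fderiv_fun_sum (fun a ha => smooth_diff (hf a ha) y)]
  simp

/-- The radial derivative. -/
noncomputable def rd {n : ℕ} (f : Cn n → ℝ) : Cn n → ℝ := fun y => fderiv ℝ f y y

theorem rd_smooth {n : ℕ} {f : Cn n → ℝ} (hf : ContDiff ℝ ∞ f) : ContDiff ℝ ∞ (rd f) :=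
  (hf.fderiv_right (m := ∞) (by simp)).clm_apply contDiff_id

theorem dv_rd {n : ℕ} {f : Cn n → ℝ} (hf : ContDiff ℝ ∞ f) (v : Cn n) :
    dv v (rd f) = fun y => rd (dv v f) y + dv v f y := by
  funext y
  have h1 : dv v (rd f) y = fderiv ℝ (fderiv ℝ f) y v y + fderiv ℝ f y v := by
    unfold dv rd
    rw [fderiv_clm_apply ((fd_diff hf) y) differentiableAt_fun_id]
    simp [add_comm]
  have h2 : rd (dv v f) y = fderiv ℝ (fderiv ℝ f) y y v := dv_dv hf y v y
  have h3 : IsSymmSndFDerivAt ℝ f y := by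
    apply ContDiffAt.isSymmSndFDerivAt (n := ∞) hf.contDiffAt
    simp only [minSmoothness_of_isRCLikeNormedField]
    exact WithTop.coe_le_coe.2 le_top
  rw [h1, h2, h3 v y]
  rfl

theorem hess_eq {n : ℕ} (f : Cn n → ℝ) (u v : Cn n) : (fun y => hess f y u v) = dv u (dv v f) := rfl

theorem Lap_eq {n : ℕ} (f : Cn n → ℝ) :
    Lap f = fun y => ∑ a : Fin n × Bool, dv (rb a) (dv (rb a) f) y := rfl

theorem Lap_dv {n : ℕ} {f : Cn n → ℝ} (hf : ContDiff ℝ ∞ f) (v : Cn n) :
    Lap (dv v f) = dv v (Lap f) := by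
  rw [Lap_eq, Lap_eq, dv_sum v _ (fun a _ => dv_smooth _ (dv_smooth _ hf))]
  funext y
  apply Finset.sum_congr rfl
  intro a _
  rw [dv_comm hf (rb a) v, dv_comm (dv_smooth _ hf) (rb a) v]

/-- The inner product with `v`. -/
noncomputable def El {n : ℕ} (v : Cn n) (y : Cn n) : ℝ := ∑ j, (conj (y j) * v j).re

theorem El_eq {n : ℕ} (v y : Cn n) : El v y = ∑ j, ((y j).re * (v j).re + (y j).im * (v j).im) := by
  unfold El
  apply Finset.sum_congr rfl
  intro j _
  simp [Complex.mul_re]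

/-- The linear form. -/
noncomputable def ElL {n : ℕ} (v : Cn n) : Cn n →L[ℝ] ℝ :=
  ∑ j, ((v j).re • (Complex.reCLM.comp (ContinuousLinearMap.proj (R := ℝ) (φ := fun _ : Fin n => ℂ) j))
    + (v j).im • (Complex.imCLM.comp (ContinuousLinearMap.proj (R := ℝ) (φ := fun _ : Fin n => ℂ) j)))

theorem ElL_apply {n : ℕ} (v y : Cn n) : ElL v y = El v y := by
  rw [El_eq]
  unfold ElL
  simp [mul_comm]

theorem El_fderiv {n : ℕ} (v y : Cn n) : fderiv ℝ (El v) y = ElL v := by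
  have : (El v) = fun y => ElL v y := by
    funext y
    rw [ElL_apply]
  rw [this]
  exact (ElL v).fderiv

theorem El_diff {n : ℕ} (v : Cn n) : Differentiable ℝ (El v) := by
  have : (El v) = fun y => ElL v y := by
    funext y
    rw [ElL_apply]
  rw [this]
  exact (ElL v).differentiable

theorem El_rb_false {n : ℕ} (j : Fin n) (y : Cn n) : El (rb (j, false)) y = (y j).re := by
  rw [El_eq, Finset.sum_eq_single j]
  · simp [rb]
  · intro i _ hi
    simp [rb, hi]
  · intro h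
    exact absurd (Finset.mem_univ j) h

theorem El_rb_true {n : ℕ} (j : Fin n) (y : Cn n) : El (rb (j, true)) y = (y j).im := by
  rw [El_eq, Finset.sum_eq_single j]
  · simp [rb]
  · intro i _ hi
    simp [rb, hi]
  · intro h
    exact absurd (Finset.mem_univ j) h

theorem El_rb_self {n : ℕ} (a : Fin n × Bool) : El (rb a) (rb a : Cn n) = 1 := by
  obtain ⟨j, b⟩ := a
  cases b
  · rw [El_rb_false]
    simp [rb]
  · rw [El_rb_true]
    simp [rb]

theorem sum_El {n : ℕ} (y : Cn n) : ∑ a : Fin n × Bool, El (rb a) y • rb a = y := by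
  rw [Fintype.sum_prod_type]
  funext i
  simp only [Fintype.sum_bool, El_rb_false, El_rb_true]
  simp only [Finset.sum_apply, Pi.add_apply, Pi.smul_apply]
  rw [Finset.sum_eq_single i]
  · simp [rb]
    apply Complex.ext <;> simp
  · intro j _ hj
    simp [rb, Pi.single_apply, Ne.symm hj]
  · intro h
    exact absurd (Finset.mem_univ i) h

theorem Lap_psi {n : ℕ} {φ ψ : Cn n → ℝ} (hφ : ContDiff ℝ ∞ φ)
    (h : ∀ y v : Cn n, fderiv ℝ ψ y v = - φ y * ∑ j, (conj (y j) * v j).re) :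
    Lap ψ = fun y => (-1) * Eu φ y := by
  funext y
  have h1 : ∀ v : Cn n, dv v ψ = fun z => - φ z * El v z := by
    intro v
    funext z
    exact h z v
  have h2 : ∀ a : Fin n × Bool, dv (rb a) (dv (rb a) ψ) y
      = - (fderiv ℝ φ y (El (rb a) y • rb a) + φ y) := by
    intro a
    rw [h1]
    unfold dv
    have hd : DifferentiableAt ℝ (fun z => - φ z) y := (smooth_diff hφ y).neg
    rw [fderiv_fun_mul hd (El_diff _ y), fderiv_fun_neg, El_fderiv]
    simp only [_root_.map_smul, smul_eq_mul, ContinuousLinearMap.add_apply,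
      ContinuousLinearMap.smul_apply, ContinuousLinearMap.neg_apply]
    rw [ElL_apply, El_rb_self]
    ring
  rw [Lap_eq]
  simp only []
  rw [Finset.sum_congr rfl (fun a _ => h2 a)]
  rw [Finset.sum_neg_distrib, Finset.sum_add_distrib, ← _root_.map_sum, sum_El]
  unfold Eu
  simp [Fintype.card_prod]
  ring

theorem keu : S_KEU := by
  intro n φ ψ hφ hψ h u v y
  have e1 : Lap (fun z => hess ψ z u v) = dv u (dv v (Lap ψ)) := by
    rw [hess_eq, Lap_dv (dv_smooth _ hψ.1), Lap_dv hψ.1]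
  have e2 : Eu φ = fun y => 2 * n * φ y + rd φ y := rfl
  have s1 : ContDiff ℝ ∞ (fun y => 2 * n * φ y) := contDiff_const.mul hφ.1
  have s2 : ContDiff ℝ ∞ (rd φ) := rd_smooth hφ.1
  have sE : ContDiff ℝ ∞ (Eu φ) := by
    rw [e2]
    exact s1.add s2
  have sv : ContDiff ℝ ∞ (dv v φ) := dv_smooth v hφ.1
  have suv : ContDiff ℝ ∞ (dv u (dv v φ)) := dv_smooth u sv
  have e3 : dv v (Eu φ) = fun y => 2 * n * dv v φ y + (rd (dv v φ) y + dv v φ y) := by
    rw [e2, dv_add v s1 s2, dv_const_mul v hφ.1, dv_rd hφ.1]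
  have s3 : ContDiff ℝ ∞ (fun y => 2 * n * dv v φ y) := contDiff_const.mul sv
  have e4 : dv u (dv v (Eu φ)) = fun y => 2 * n * dv u (dv v φ) y +
      ((rd (dv u (dv v φ)) y + dv u (dv v φ) y) + dv u (dv v φ) y) := by
    rw [e3, dv_add u s3 ((rd_smooth sv).add sv), dv_const_mul u sv, dv_add u (rd_smooth sv) sv,
      dv_rd sv]
  rw [e1, Lap_psi hφ.1 h, dv_const_mul v sE, dv_const_mul u (dv_smooth v sE), e4]
  have e5 : (fun z => hess φ z u v) = dv u (dv v φ) := rfl
  rw [e5]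
  have e6 : hess φ y u v = dv u (dv v φ) y := rfl
  rw [e6]
  have e7 : Eu (dv u (dv v φ)) y = 2 * n * dv u (dv v φ) y + rd (dv u (dv v φ)) y := rfl
  rw [e7]
  ring

end Pool.Agent.Helper88.AY
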